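import Pool.Agent.X120.HG.Drc

/-!
# de Rham-Betti classes on the tensor spaces of `M_0` and of hypergeometric motives at the points `b^(-n)`

Let `β_(i,1), …, β_(i,m_i)`, `1 ≤ i ≤ k`, be rational numbers which are not integers and `θ = z d/dz`. The hypergeometric operator
`θ^(2 m_i) - z ∏_j (θ - β_(i,j)) (θ + β_(i,j))` has maximally unipotent monodromy at `z = 0`. For `m_i = 1` its solutions are periods of families
of elliptic curves, for `m_i = 2` it is contiguous to the operators of the families of Calabi-Yau threefolds like the mirror quintic. The period matrix of the fibre at `z` is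
`(Y_i(z) Ω_i)ᵀ` (rows: Betti side, columns: de Rham side), where `Y_i(z)` is the matrix of the `(θ^a f_b)(z)`, `f_b` the Frobenius basis (with the powers
of `log z`), and `Ω_i` is an invertible matrix of constants, the periods of the limit motive. Let `b_i ≥ 2` be integers and let `M_(i,z)` be the de Rham-Betti object with
this period matrix. We suppose that it has a polarisation with values in `ℚ(-w_i)`: the form `Ω_iᵀ J_i Ω_i` on the Betti side is `(2πi)^(w_i)` times a rational matrix `B_i`.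

Let `M_0` be any de Rham-Betti object of rank `n_0` over a number field `K`, that is any invertible matrix `C_0`, for example the realisation of any (pure or mixed) motive over `K`. A class
on `M_0^(⊗ r) ⊗ M_(τ(1), z_(τ(1))) ⊗ … ⊗ M_(τ(q), z_(τ(q)))`, twisted by `ℚ(j)`, is given by its de Rham coordinates `u` in `K` and its Betti coordinates `v`. In the problem the latter are
rational. We allow `v` to have coordinates in any subfield `L` of `K`.

**Theorem.** Given `D` and `n_0`, for all but `C N^(k-1) log N` of the tuples `(t_1, …, t_k)` in `[1, N]^k` (for `k = 1` for all but `C log N` of the first `N` fibres), where `C`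
depends only on the `β_i`, the `b_i`, `D` and `n_0`, for `z_i = b_i^(-t_i)`, for all number fields `K` of degree at most `D` at once, all subfields `L`, for every `M_0` of rank `n_0`, all `Ω_i` and
for all `r`, `q`, `τ` and `j`:

every class is an `L`-linear combination of products `α ⊗ λ_1 ⊗ … ⊗ λ_s` of a class `α` on a twist of `M_0^(⊗ r)` and polarisations `λ` of the `M_(i, z_i)`.

There are also `M(N) → ∞` and `ε(N) → 0` such that for all but
`ε(N) N^k` tuples in `[1, N]^k` this holds for all number fields of degree at most `M(N)` and all `M_0` of rank at most `M(N)`.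

So for `M = M_0 ⊕ ⨁ M_(i, z_i)` every de Rham-Betti class on the tensor spaces of `M` (with `M_0` replaced by `M_0 ⊕ M_0^∨`) is motivated, if this is true for `M_0`; so the functor `ρ_dRB` is full on `⟨M⟩`, for motives
with these realisations, if this is true for `⟨M_0⟩`, for example for `M_0 = 0`, for Artin motives or for `M_0 = 𝔥(E)`, `E` an elliptic curve with complex multiplication.

Proof. The classes define a subtorsor over `K` of the torsor of all isomorphisms. By the theorem on subtorsors for these families (`MP_cbf1af_ag.HypergeometricTorsorsAtPowers`, in the library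
`Pool.Agent.X120.GS`) it is stable under `∏ Sp(B_i)`. Hence the Betti side is invariant under this group, and by the first fundamental theorem it is a combination of products
of forms `B_i` with coefficients in the tensors on the Betti side of `M_0`. We choose a basis of the products of forms. The same products on the
de Rham side are linearly independent because of the comparison isomorphism, and the coefficients of the de Rham side of the class are in `K`, so that the coefficients are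
de Rham-Betti classes.
-/

set_option autoImplicit false

open PowerSeries Matrix Filter

namespace Pool.Agent.Results.MP_470b79_ag.ClassesAtPowers

/-- the power series `k + ε` in the variable `ε` -/
noncomputable def shift (k : ℕ) : PowerSeries ℚ := C (k : ℚ) + X

/-- `a_k(ε) = ∏_{l < k} ∏_j ((l + ε)^2 - β_j^2) / (l + 1 + ε)^(2m)`. The series `∑_k a_k(ε) z^(k + ε)` solves the
equation `(θ^n - z ∏_j (θ^2 - β_j^2)) f = ε^n z^ε`, hence its coefficients `f_j` at `ε^j` with `j < n = 2m` are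
solutions of the homogeneous equation. -/
noncomputable def frob {m : ℕ} (β : Fin m → ℚ) (k : ℕ) : PowerSeries ℚ :=
  ∏ l ∈ Finset.range k, ((∏ j, (shift l ^ 2 - C (β j ^ 2))) * ((shift (l + 1))⁻¹) ^ (2 * m))

/-- The matrix with the entries `(θ^i f_j)(1 / t)`, where `f_j(z)` is the coefficient of `ε^j` in the series
`∑_k a_k(ε) z^(k + ε)`, `z^ε = ∑_l (log z)^l ε^l / l!`. -/
noncomputable def Y {m : ℕ} (β : Fin m → ℚ) (t : ℕ) : Matrix (Fin (2 * m)) (Fin (2 * m)) ℂ :=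
  Matrix.of fun i j => ∑ l ∈ Finset.range ((j : ℕ) + 1), ((Real.log (1 / t) ^ l / l.factorial : ℝ) : ℂ) *
    ∑' k : ℕ, ((coeff ((j : ℕ) - l) (shift k ^ (i : ℕ) * frob β k) : ℚ) : ℂ) * (1 / (t : ℂ)) ^ k

/-- the polynomial `∏_j (x^2 - β_j^2)` -/
noncomputable def poly {m : ℕ} (β : Fin m → ℚ) : Polynomial ℚ := ∏ j, (Polynomial.X ^ 2 - Polynomial.C (β j ^ 2))

/-- The matrix of the intersection form on the de Rham side: the entry `(i, j)` is `(-1)^i q_{i+j+1-n}` for `i + j + 1 ≥ n` and `0`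
otherwise, where `q_l` are the coefficients of `∏_j (x^2 - β_j^2)`. -/
noncomputable def J {m : ℕ} (β : Fin m → ℚ) : Matrix (Fin (2 * m)) (Fin (2 * m)) ℚ :=
  Matrix.of fun i j => if 2 * m ≤ (i : ℕ) + j + 1 then (-1) ^ (i : ℕ) * (poly β).coeff (i + j + 1 - 2 * m) else 0

/-- a rational matrix as a complex matrix -/
def toC {n : ℕ} (M : Matrix (Fin n) (Fin n) ℚ) : Matrix (Fin n) (Fin n) ℂ := M.map fun x : ℚ => (x : ℂ)

/-- the number `2πi` -/
noncomputable def twoPiI : ℂ := 2 * Real.pi * Complex.I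

/-- the period matrix of `M_(i, 1/s)` -/
noncomputable def period {m : ℕ} (β : Fin m → ℚ) (Ω : Matrix (Fin (2 * m)) (Fin (2 * m)) ℂ) (s : ℕ) :
    Matrix (Fin (2 * m)) (Fin (2 * m)) ℂ := (Y β s * Ω)ᵀ

section
variable {n₀ k r q : ℕ} {n : Fin k → ℕ}

/-- The complex tensors on `M_0^(⊗ r) ⊗ (⨁_i M_i)^(⊗ q)`, in coordinates -/
abbrev Tensor (n₀ r : ℕ) {k : ℕ} (n : Fin k → ℕ) (q : ℕ) : Type :=
  (Fin r → Fin n₀) → (Fin q → Σ i, Fin (n i)) → ℂ

/-- `(u, v)` is a de Rham-Betti class on `M_0^(⊗ r) ⊗ M_(τ(1)) ⊗ … ⊗ M_(τ(q))`, twisted by `ℚ(j)`, for the period matrices `C₀` and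
`Z_i`, with de Rham coordinates `u` in `K` and Betti coordinates `v` in `L`. (If `v` is supported on the component `τ` then so is `u`.) -/
def IsClass (K L : Subfield ℂ) (C₀ : Matrix (Fin n₀) (Fin n₀) ℂ) (Z : ∀ i, Matrix (Fin (n i)) (Fin (n i)) ℂ)
    (τ : Fin q → Fin k) (j : ℤ) (u v : Tensor n₀ r n q) : Prop :=
  (∀ a I, u a I ∈ K) ∧ (∀ a I, v a I ∈ L) ∧ (∀ a I, v a I ≠ 0 → ∀ l, (I l).1 = τ l) ∧
  ∀ a I, ∑ b : Fin r → Fin n₀, ∑ J : Fin q → Σ i, Fin (n i),
    (∏ l, C₀ (a l) (b l)) * (∏ l, Matrix.blockDiagonal' Z (I l) (J l)) * u b J = twoPiI ^ j * v a I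

/-- `(u, v)` is a de Rham-Betti class on `M_0^(⊗ r)`, twisted by `ℚ(j)` -/
def IsClass₀ (K L : Subfield ℂ) (C₀ : Matrix (Fin n₀) (Fin n₀) ℂ) (j : ℤ) (u v : (Fin r → Fin n₀) → ℂ) : Prop :=
  (∀ a, u a ∈ K) ∧ (∀ a, v a ∈ L) ∧ ∀ a, ∑ b : Fin r → Fin n₀, (∏ l, C₀ (a l) (b l)) * u b = twoPiI ^ j * v a

/-- The product `A_(c 1) ⊗ A_(c 2) ⊗ …` of forms `A_i` over a matching `e` of the factors of the tensor product -/
def pairing (A : ∀ i, Matrix (Fin (n i)) (Fin (n i)) ℚ) {s : ℕ} (e : Fin s × Fin 2 ≃ Fin q) (c : Fin s → Fin k) :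
    (Fin q → Σ i, Fin (n i)) → ℂ :=
  fun I => ∏ l, if (I (e (l, 0))).1 = c l then ((Matrix.blockDiagonal' A (I (e (l, 0))) (I (e (l, 1))) : ℚ) : ℂ) else 0

/-- the tensor product -/
def tensor (u : (Fin r → Fin n₀) → ℂ) (P : (Fin q → Σ i, Fin (n i)) → ℂ) : Tensor n₀ r n q := fun a I => u a * P I

/-- the factors paired by `e` are of the type given by `c` -/
def Matches (τ : Fin q → Fin k) {s : ℕ} (e : Fin s × Fin 2 ≃ Fin q) (c : Fin s → Fin k) : Prop :=
  ∀ l, τ (e (l, 0)) = c l ∧ τ (e (l, 1)) = c l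

/-- The products of a class on a twist of `M_0^(⊗ r)` and the classes of the polarisations, with the matrices `Q_i` on the de Rham side and `B_i`
on the Betti side, over a matching which respects `τ`. The polarisation of `M_i` has values in `ℚ(-w_i)`. -/
def products (K L : Subfield ℂ) (C₀ : Matrix (Fin n₀) (Fin n₀) ℂ) (Q B : ∀ i, Matrix (Fin (n i)) (Fin (n i)) ℚ)
    (w : Fin k → ℕ) (τ : Fin q → Fin k) (j : ℤ) : Set (Tensor n₀ r n q × Tensor n₀ r n q) :=
  {p | ∃ (s : ℕ) (e : Fin s × Fin 2 ≃ Fin q) (c : Fin s → Fin k) (u v : (Fin r → Fin n₀) → ℂ),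
    Matches τ e c ∧ IsClass₀ K L C₀ (j - ∑ l, (w (c l) : ℤ)) u v ∧ p = (tensor u (pairing Q e c), tensor v (pairing B e c))}

/-- All classes on all `M_0^(⊗ r) ⊗ M_(τ(1)) ⊗ … ⊗ M_(τ(q))(j)` are generated by classes of `M_0` and the polarisations. -/
def AllGenerated (K L : Subfield ℂ) (C₀ : Matrix (Fin n₀) (Fin n₀) ℂ) (Z : ∀ i, Matrix (Fin (n i)) (Fin (n i)) ℂ)
    (Q B : ∀ i, Matrix (Fin (n i)) (Fin (n i)) ℚ) (w : Fin k → ℕ) : Prop :=
  ∀ (r q : ℕ) (τ : Fin q → Fin k) (j : ℤ) (u v : Tensor n₀ r n q), IsClass K L C₀ Z τ j u v →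
    (u, v) ∈ Submodule.span L (products K L C₀ Q B w τ j)

end

/-- For all number fields `K` of degree at most `D` and all `L ⊆ K` all classes are generated by classes of `M_0` and the polarisations. -/
def Good (D : ℕ) {n₀ k : ℕ} {m : Fin k → ℕ} (C₀ : Matrix (Fin n₀) (Fin n₀) ℂ) (β : ∀ i, Fin (m i) → ℚ)
    (Ω : ∀ i, Matrix (Fin (2 * m i)) (Fin (2 * m i)) ℂ) (s : Fin k → ℕ) : Prop :=
  ∀ K L : Subfield ℂ, L ≤ K → FiniteDimensional ℚ K → Module.finrank ℚ K ≤ D →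
    ∀ (w : Fin k → ℕ) (B : ∀ i, Matrix (Fin (2 * m i)) (Fin (2 * m i)) ℚ),
      (∀ i, (Ω i)ᵀ * toC (J (β i)) * Ω i = twoPiI ^ w i • toC (B i)) →
      AllGenerated K L C₀ (fun i => period (β i) (Ω i) (s i)) (fun i => J (β i)) B w

theorem shift_eq (k : ℕ) : shift k = Pool.Agent.Y119.HY.kx k := rfl

theorem frob_eq {m : ℕ} (β : Fin m → ℚ) (k : ℕ) : frob β k = Pool.Agent.Y119.HY.aq (2 * m) (Pool.Agent.Y119.HY.QB β) k := by
  unfold frob Pool.Agent.Y119.HY.aq
  refine Finset.prod_congr rfl fun l _ => ?_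
  congr 1
  unfold Pool.Agent.Y119.HY.QB
  rw [map_prod]
  refine Finset.prod_congr rfl fun j _ => ?_
  simp only [map_sub, map_pow, Polynomial.aeval_X, Polynomial.aeval_C]
  rfl

theorem J_eq {m : ℕ} (β : Fin m → ℚ) : J β = Pool.Agent.Y119.HY.Jm (2 * m) (Pool.Agent.Y119.HY.QB β) := rfl

theorem Y_eq {m : ℕ} (β : Fin m → ℚ) (t : ℕ) :
    Y β t = Pool.Agent.Y119.HZ.Yt (2 * m) (Pool.Agent.Y119.HY.QB β) t := by
  ext i j
  unfold Y Pool.Agent.Y119.HZ.Yt
  rw [Matrix.of_apply, Matrix.mul_apply]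
  have hE : ∀ c : Fin (2 * m), Pool.Agent.Y119.HY.E (Pool.Agent.Y119.HY.cm (Pool.Agent.Y119.HY.Am (2 * m)))
      (-((Real.log t : ℝ) : ℂ)) c j = ∑ l ∈ Finset.range (2 * m),
        if (j : ℕ) = c + l then ((Real.log (1 / t) ^ l / l.factorial : ℝ) : ℂ) else 0 := by
    intro c
    unfold Pool.Agent.Y119.HY.E
    rw [Matrix.sum_apply]
    refine Finset.sum_congr rfl fun l _ => ?_
    rw [Matrix.smul_apply, ← Pool.Agent.Y119.HY.cm_pow, Pool.Agent.Y119.HY.cm_apply, Pool.Agent.Y119.HY.Am_pow, smul_eq_mul,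
      one_div, Real.log_inv]
    split_ifs
    · push_cast
      ring
    · simp
  simp only [hE, Finset.mul_sum]
  rw [Finset.sum_comm]
  have hsub : Finset.range ((j : ℕ) + 1) ⊆ Finset.range (2 * m) := by
    intro l hl
    rw [Finset.mem_range] at hl ⊢
    have := j.2
    omega
  refine Finset.sum_subset_zero_on_sdiff hsub (fun l hl => ?_) fun l hl => ?_
  · rw [Finset.mem_sdiff, Finset.mem_range, Finset.mem_range] at hl
    refine Finset.sum_eq_zero fun c _ => ?_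
    rw [if_neg (by omega), mul_zero]
  · rw [Finset.mem_range] at hl
    have hj := j.2
    rw [Finset.sum_eq_single (⟨(j : ℕ) - l, by omega⟩ : Fin (2 * m))]
    · rw [if_pos (by simp only; omega), mul_comm]
      congr 1
      unfold Pool.Agent.Y119.HY.Hf Pool.Agent.Y119.HY.ps
      rw [Matrix.of_apply]
      refine tsum_congr fun k => ?_
      show _ = ((Pool.Agent.Y119.HY.hq (2 * m) (Pool.Agent.Y119.HY.QB β) k i ((j : ℕ) - l) : ℚ) : ℂ) *
        (((1 / (t : ℝ) : ℝ)) : ℂ) ^ k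
      rw [frob_eq, shift_eq]
      unfold Pool.Agent.Y119.HY.hq
      push_cast
      rfl
    · intro c _ hc
      rw [if_neg, mul_zero]
      intro h
      apply hc
      apply Fin.ext
      simp only
      omega
    · intro h
      exact absurd (Finset.mem_univ _) h

/-- the conclusion from the stability of the subtorsors -/
theorem good_of {k : ℕ} {m : Fin k → ℕ} (hm : ∀ i, 1 ≤ m i) {β : ∀ i, Fin (m i) → ℚ}
    (hβ : ∀ i, ∀ j, ∀ l : ℕ, (l : ℚ) + β i j ≠ 0 ∧ (l : ℚ) + -β i j ≠ 0) {D n₀ : ℕ}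
    {C₀ : Matrix (Fin n₀) (Fin n₀) ℂ} (hC₀ : IsUnit C₀) {Ω : ∀ i, Matrix (Fin (2 * m i)) (Fin (2 * m i)) ℂ}
    (hΩ : ∀ i, IsUnit (Ω i)) {s : Fin k → ℕ} (hs : ∀ i, 2 ≤ s i)
    (hgood : Pool.Agent.X120.GS.StaG (n := fun i => 2 * m i) D (Pool.Agent.X120.HG.wT C₀ Pool.Agent.Y123.GN.tpi)
      (fun i => (Pool.Agent.Y119.HZ.Yt (2 * m i) (Pool.Agent.Y119.HY.QB (β i)) (s i) * Ω i)ᵀ)
      (fun i => (Ω i)ᵀ * Pool.Agent.Y119.HY.cm (Pool.Agent.Y119.HY.Jm (2 * m i) (Pool.Agent.Y119.HY.QB (β i))) * Ω i)) :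
    Good D C₀ β Ω s := by
  classical
  intro K L hLK hKf hKD w B hB r q τ j u v ⟨huK, hvL, hvτ, hc⟩
  have hQ := fun i => Pool.Agent.Y119.HZ.QD_QB (hm i) (hβ i)
  have hcq : ∀ i, Pool.Agent.Y119.HY.cm (Pool.Agent.Y119.HY.Jm (2 * m i) (Pool.Agent.Y119.HY.QB (β i))) =
      Pool.Agent.X120.HG.cq (J (β i)) := by
    intro i
    ext a b
    rw [Pool.Agent.Y119.HY.cm_apply, J_eq]
    rfl
  have hPB : ∀ i, Pool.Agent.Y123.GN.PM' (n := fun i => 2 * m i) (fun i => Pool.Agent.Y119.HY.QB (β i)) Ω i =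
      Pool.Agent.Y123.GN.tpi ^ w i • Pool.Agent.X120.HG.cq (B i) := by
    intro i
    unfold Pool.Agent.Y123.GN.PM'
    rw [hcq]
    exact hB i
  have hZ : (fun i => period (β i) (Ω i) (s i)) = Pool.Agent.Y123.GN.cM (n := fun i => 2 * m i)
      (fun i => Pool.Agent.Y119.HY.QB (β i)) Ω s := by
    funext i
    unfold Pool.Agent.Y123.GN.cM period
    rw [Y_eq]
  have htpi : Pool.Agent.Y123.GN.tpi ≠ 0 := Pool.Agent.Y123.GN.tpi_ne
  have hBd : ∀ i, (Pool.Agent.X120.HG.cq (B i)).det ≠ 0 := by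
    intro i h0
    apply Pool.Agent.Y123.GN.PM'_det (n := fun i => 2 * m i) hQ hΩ i
    rw [hPB, det_smul, h0, mul_zero]
  have hBu : ∀ i, IsUnit (B i) := by
    intro i
    rw [Matrix.isUnit_iff_isUnit_det, isUnit_iff_ne_zero]
    intro h0
    apply hBd i
    have h2 : (Pool.Agent.X120.HG.cq (B i)).det = algebraMap ℚ ℂ (B i).det := by
      rw [Pool.Agent.X120.HG.cq_eq]
      exact (RingHom.map_det (algebraMap ℚ ℂ) (B i)).symm
    rw [h2, h0, map_zero]
  have hBt : ∀ i, (B i)ᵀ = -B i := by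
    intro i
    have h1 := Pool.Agent.Y123.GN.PM'_skew (n := fun i => 2 * m i) hQ Ω i
    rw [hPB, transpose_smul, ← smul_neg] at h1
    have h2 := smul_right_injective _ (pow_ne_zero (w i) htpi) h1
    ext a b
    have h3 := congrFun (congrFun h2 a) b
    have h4 : ((B i b a : ℚ) : ℂ) = -((B i a b : ℚ) : ℂ) := h3
    have h5 : B i b a = -B i a b := by exact_mod_cast h4
    exact h5
  have hform : ∀ i, Pool.Agent.Y123.GN.cM (n := fun i => 2 * m i) (fun i => Pool.Agent.Y119.HY.QB (β i)) Ω s i *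
      Pool.Agent.X120.HG.cq (J (β i)) * (Pool.Agent.Y123.GN.cM (n := fun i => 2 * m i)
        (fun i => Pool.Agent.Y119.HY.QB (β i)) Ω s i)ᵀ = Pool.Agent.Y123.GN.tpi ^ w i • Pool.Agent.X120.HG.cq (B i) := by
    intro i
    have h6 := Pool.Agent.Y123.GN.cM_form (n := fun i => 2 * m i) hQ Ω hs i
    rw [hPB, hcq] at h6
    exact h6
  have hZu : ∀ i, IsUnit (Pool.Agent.Y123.GN.cM (n := fun i => 2 * m i) (fun i => Pool.Agent.Y119.HY.QB (β i)) Ω s i) := by
    intro i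
    rw [Matrix.isUnit_iff_isUnit_det, isUnit_iff_ne_zero]
    intro h0
    have h1 := congrArg Matrix.det (hform i)
    rw [det_mul, det_mul, h0, zero_mul, zero_mul, det_smul] at h1
    exact (mul_ne_zero (pow_ne_zero _ (pow_ne_zero _ htpi)) (hBd i)) h1.symm
  have hspf : ∀ i, Pool.Agent.Y123.GN.Spf (Pool.Agent.Y123.GN.PM' (n := fun i => 2 * m i)
      (fun i => Pool.Agent.Y119.HY.QB (β i)) Ω i) := fun i =>
    ⟨(Matrix.isUnit_iff_isUnit_det _).2 (isUnit_iff_ne_zero.2 (Pool.Agent.Y123.GN.PM'_det (n := fun i => 2 * m i) hQ hΩ i)),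
      Pool.Agent.Y123.GN.PM'_skew (n := fun i => 2 * m i) hQ Ω i⟩
  rw [hZ] at hc
  have hc' : Pool.Agent.X120.HG.act2 C₀ (Pool.Agent.Y123.GN.cM (n := fun i => 2 * m i)
      (fun i => Pool.Agent.Y119.HY.QB (β i)) Ω s) u = Pool.Agent.Y123.GN.tpi ^ j • v := by
    funext a I
    exact hc a I
  have h1 := Pool.Agent.X120.HG.cls_gen (r := r) (m := q) hLK hBu hBt hC₀ hZu hform (τ := τ) huK hvL hc' hvτ (fun g hg a => by
    have h2 := Pool.Agent.X120.HG.inv_of_sta (K := K) (D := D) (r := r) (m := q) hC₀ hZu hspf hgood hKf hKD (j := j)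
      (u := fun a I => ⟨u a I, huK a I⟩) (v := fun a I => ⟨v a I, hLK (hvL a I)⟩) hc' g (fun i => by
        rw [hPB, Matrix.mul_smul, Matrix.smul_mul, hg]) a
    exact h2)
  refine Submodule.span_mono ?_ h1
  rintro p ⟨s', e, c, u₀, v₀, hec, hu₀, hv₀, h0, rfl⟩
  refine ⟨s', e, c, u₀, v₀, hec, ⟨hu₀, hv₀, fun a => congrFun h0 a⟩, ?_⟩
  have hp : ∀ A : ∀ i, Matrix (Fin (2 * m i)) (Fin (2 * m i)) ℚ,
      Pool.Agent.X120.GS.TT.matB (fun i => Pool.Agent.X120.HG.cq (A i)) e c = pairing A e c := by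
    intro A
    funext I
    unfold Pool.Agent.X120.GS.TT.matB pairing
    refine Finset.prod_congr rfl fun l _ => ?_
    split_ifs
    · rw [Pool.Agent.X120.HG.bd_cq]
    · rfl
  rw [hp, hp]
  rfl

/-- **The theorem.** -/
theorem result (k : ℕ) (m : Fin k → ℕ) (hm : ∀ i, 1 ≤ m i) (β : ∀ i, Fin (m i) → ℚ)
    (hβ : ∀ i j, ∀ a : ℤ, β i j ≠ a) (b : Fin k → ℕ) (hb : ∀ i, 2 ≤ b i) :
    -- number fields of degree at most `D`, `M_0` of rank `n₀`
    (∀ D n₀ : ℕ, ∃ C : ℝ, 0 ≤ C ∧ ∀ C₀ : Matrix (Fin n₀) (Fin n₀) ℂ, IsUnit C₀ →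
      ∀ Ω : (∀ i, Matrix (Fin (2 * m i)) (Fin (2 * m i)) ℂ), (∀ i, IsUnit (Ω i)) → ∀ N : ℕ, 2 ≤ N →
      (({t : Fin k → ℕ | (∀ i, 1 ≤ t i ∧ t i ≤ N) ∧ ¬ Good D C₀ β Ω fun i => b i ^ t i}.ncard : ℕ) : ℝ) * N ≤
        C * (N : ℝ) ^ k * Real.log N) ∧
    -- all number fields of degree at most `M N`, all `M_0` of rank at most `M N`
    (∃ (M : ℕ → ℕ) (ε : ℕ → ℝ), Tendsto M atTop atTop ∧ Tendsto ε atTop (nhds 0) ∧
      ∀ N : ℕ, 2 ≤ N → ∀ n₀ ≤ M N, ∀ C₀ : Matrix (Fin n₀) (Fin n₀) ℂ, IsUnit C₀ →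
      ∀ Ω : (∀ i, Matrix (Fin (2 * m i)) (Fin (2 * m i)) ℂ), (∀ i, IsUnit (Ω i)) →
      (({t : Fin k → ℕ | (∀ i, 1 ≤ t i ∧ t i ≤ N) ∧ ¬ Good (M N) C₀ β Ω fun i => b i ^ t i}.ncard : ℕ) : ℝ) ≤
        ε N * (N : ℝ) ^ k) := by
  classical
  have hβ' : ∀ i, ∀ j, ∀ l : ℕ, (l : ℚ) + β i j ≠ 0 ∧ (l : ℚ) + -β i j ≠ 0 := by
    intro i j l
    constructor
    · intro h
      apply hβ i j (-(l : ℤ))
      push_cast
      linear_combination h
    · intro h
      apply hβ i j (l : ℤ)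
      push_cast
      linear_combination -h
  have hQ := fun i => Pool.Agent.Y119.HZ.QD_QB (hm i) (hβ' i)
  have hmain : ∀ D r : ℕ, ∃ C : ℝ, 0 ≤ C ∧ ∀ C₀ : Matrix (Fin r) (Fin r) ℂ, IsUnit C₀ →
      ∀ Ω : (∀ i, Matrix (Fin (2 * m i)) (Fin (2 * m i)) ℂ), (∀ i, IsUnit (Ω i)) → ∀ N : ℕ, 2 ≤ N →
      (({t : Fin k → ℕ | (∀ i, 1 ≤ t i ∧ t i ≤ N) ∧ ¬ Good D C₀ β Ω fun i => b i ^ t i}.ncard : ℕ) : ℝ) * N ≤
        C * (N : ℝ) ^ k * Real.log N := by
    intro D r
    obtain ⟨d, hd⟩ := Pool.Agent.X120.GS.sta_of (Fintype.card (Fin r ⊕ Unit) + ∑ i, 2 * m i) D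
    obtain ⟨C, hC, hcount⟩ := Pool.Agent.X120.GS.hyp_relS (Fin r ⊕ Unit) k 1 d (fun i => 2 * m i)
      (fun i => Pool.Agent.Y119.HY.QB (β i)) hQ (fun i μ hμ => by
        exact Pool.Agent.X120.GS.QB_rat (β i) hμ) (fun i a b => Pool.Agent.Y119.HY.sdc_hps (hβ' i) (hQ i) a b) hb
    refine ⟨C, hC, ?_⟩
    intro C₀ hC₀ Ω hΩ N hN
    set S := {t : Fin k → ℕ | (∀ i, 1 ≤ t i ∧ t i ≤ N) ∧ ¬ Good D C₀ β Ω fun i => b i ^ t i} with hS
    have hfin : S.Finite := by
      refine (Set.finite_Iic (fun _ : Fin k => N)).subset ?_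
      intro t ht i
      exact (ht.1 i).2
    rw [Set.ncard_eq_toFinset_card S hfin]
    refine hcount Ω hΩ (Pool.Agent.X120.HG.wT C₀ Pool.Agent.Y123.GN.tpi) N hN hfin.toFinset fun t ht => ?_
    have ht' := hfin.mem_toFinset.1 ht
    refine ⟨ht'.1, fun hgood => ht'.2 ?_⟩
    have hs : ∀ i, 2 ≤ b i ^ t i := fun i => (hb i).trans (Nat.le_self_pow (by have := (ht'.1 i).1; omega) _)
    refine good_of hm hβ' hC₀ hΩ hs (hd (Fin r ⊕ Unit) k (fun i => 2 * m i) le_rfl _ _ _ (fun i => Or.inr (Or.inl ?_)) hgood)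
    exact ⟨(Matrix.isUnit_iff_isUnit_det _).2 (isUnit_iff_ne_zero.2 (Pool.Agent.Y123.GN.PM'_det (n := fun i => 2 * m i) hQ hΩ i)),
        Pool.Agent.Y123.GN.PM'_skew (n := fun i => 2 * m i) hQ Ω i⟩
  refine ⟨hmain, ?_⟩
  choose C hC hcount using hmain
  obtain ⟨D, hD, hδ⟩ := Pool.Agent.Y123.GN.diag_seq (fun D N => (∑ r ∈ Finset.range (D + 1), C D r) * (Real.log N / N)) (by
      intro D
      have h1 : Tendsto (fun N : ℕ => Real.log N / N) atTop (nhds 0) :=
        (Real.isLittleO_log_id_atTop.tendsto_div_nhds_zero).comp tendsto_natCast_atTop_atTop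
      have h5 := h1.const_mul (∑ r ∈ Finset.range (D + 1), C D r)
      rw [mul_zero] at h5
      exact h5)
  refine ⟨D, _, hD, hδ, ?_⟩
  intro N hN r hr C₀ hC₀ Ω hΩ
  have h1 := hcount (D N) r C₀ hC₀ Ω hΩ N hN
  have hN0 : (0 : ℝ) < N := by
    have : 0 < N := by omega
    exact_mod_cast this
  rw [← le_div_iff₀ hN0] at h1
  have h2 : C (D N) r ≤ ∑ r ∈ Finset.range (D N + 1), C (D N) r :=
    Finset.single_le_sum (f := fun r => C (D N) r) (fun r _ => hC (D N) r) (Finset.mem_range.2 (by omega))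
  have hlog : 0 ≤ Real.log N := Real.log_nonneg (by exact_mod_cast (by omega : 1 ≤ N))
  refine h1.trans ?_
  have h3 : C (D N) r * (N : ℝ) ^ k * Real.log N / N = C (D N) r * (Real.log N / N) * (N : ℝ) ^ k := by ring
  rw [h3]
  refine mul_le_mul_of_nonneg_right (mul_le_mul_of_nonneg_right h2 ?_) (by positivity)
  positivity

end Pool.Agent.Results.MP_470b79_ag.ClassesAtPowers
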