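import Pool.Agent.X208.SP.Pred
import Pool.Agent.Y133.Half.Per

/-!
# De Rham-Betti classes on `Y × Sym ^ n X`

Let `W` be a Weil cohomology theory with a de Rham structure `D` (in the intended use the Betti
cohomology with rational coefficients of the smooth projective varieties over a subfield of the field
of algebraic numbers). The classes on `Y × Sym ^ n X` are the classes on `Y × X ^ n` which are
symmetric in the factors `X`. Let `g^j(n)` be the dimension of the space of the de Rham-Betti classes
of codimension `j` on `Y × Sym ^ n X`, `h^j(n)` the dimension of the space of the classes of the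
algebraic cycles, and `r^j(n)` the rank of the group of the algebraic cycles modulo numerical
equivalence; so `r^j(n) ≤ h^j(n) ≤ g^j(n)`. We prove for every `X`:

* if some de Rham-Betti class on `X` is not algebraic, or homological and numerical equivalence differ
  on `X`, then for some `c ≤ dim X` and for all `Y`, `n` and `j`:
  `r^(j + c)(n + 1) + h^j(n) ≤ g^(j + c)(n + 1)`;
* so if for one `Y` and some `ε > 0` the sum of the `r^j(n)` over `j` is at least `1 / 2 + ε` times
  the sum of the `g^j(n)`, for all large `n`, then all de Rham-Betti classes on `X` are algebraic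
  and homological and numerical equivalence agree on `X`;
* all de Rham-Betti classes on all powers of `X` are algebraic and homological and numerical
  equivalence agree on all powers of `X` if and only if for all `m` the second condition holds for
  `X × Sym ^ n (X ^ m)`.
-/

open Pool.Agent.H914 Pool.Agent.H914.VarClass.Obj Pool.Agent.H914.WeilCohomology
  Pool.Agent.Y133.Per Pool.Agent.X208.SP
open Pool.Agent.Y133.Half (pw)

universe u v

namespace Pool.Agent.Results.MP_470b79_ag.FiftyPercentLaw

/-- The dimension of the space of the de Rham-Betti classes of codimension `j` on `Y × Sym ^ n X`. -/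
noncomputable def drbNum {k : Type u} [Field k] {𝒱 : VarClass k} {ops : CycleOps 𝒱}
    {W : WeilCohomology.{u, v} ops} [Algebra W.K ℂ] {F : Subfield ℂ} (D : DeRham W F)
    (Y X : 𝒱.Obj) (n j : ℕ) : ℕ :=
  invDim W Y X n {x | IsDRB D (yp Y X n) j x}

/-- All de Rham-Betti classes on `X` are algebraic and homological and numerical equivalence agree
on `X`. -/
def AllAlgebraic {k : Type u} [Field k] {𝒱 : VarClass k} {ops : CycleOps 𝒱}
    {W : WeilCohomology.{u, v} ops} [Algebra W.K ℂ] {F : Subfield ℂ} (D : DeRham W F)
    (X : 𝒱.Obj) : Prop :=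
  (∀ j, GPC D X j) ∧ HomEqNum W X

theorem result {k : Type u} [Field k] {𝒱 : VarClass k} {ops : CycleOps 𝒱}
    {W : WeilCohomology.{u, v} ops} [Algebra W.K ℂ] {F : Subfield ℂ} (D : DeRham W F)
    (X : 𝒱.Obj) :
    (¬ AllAlgebraic D X → ∃ c ≤ X.dim, ∀ (Y : 𝒱.Obj) (n j : ℕ),
      symRank ops Y X (n + 1) (j + c) + symDim W Y X n j ≤ drbNum D Y X (n + 1) (j + c)) ∧
    (∀ Y : 𝒱.Obj, (1 : W.H Y) ≠ 0 → MoreThanHalf Y X (symRank ops Y X) (drbNum D Y X) →
      AllAlgebraic D X) ∧
    ((∀ n, AllAlgebraic D (pw X n)) ↔
      ∀ m, MoreThanHalf X (pw X m) (symRank ops X (pw X m)) (drbNum D X (pw X m))) :=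
  ⟨(pred_law (drbPred D) X).1, (pred_law (drbPred D) X).2, pred_all (drbPred D) X⟩

end Pool.Agent.Results.MP_470b79_ag.FiftyPercentLaw
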