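import Pool.Agent.X227.UP.DRB

/-!
# De Rham-Betti classes on all powers: only finitely many factors matter

Let `K ⊆ ℚ̄ ⊆ ℂ`, `𝒱` a class of smooth projective varieties over `K` closed under products, and `W` their
Betti cohomology with coefficients in `ℂ` (any Weil cohomology theory with algebraically closed
coefficients is allowed). The de Rham-Betti objects which are generated by the `H(Y)`, `Y ∈ 𝒱`, form a
tannakian category, and `Γ` is the group of `ℂ`-points of its fundamental group `G_dRB`, which acts
on all `H(Y)`; it fixes the classes of cycles up to the character `χ` on the Tate objects (`GaloisData`
records the formal properties). The de Rham-Betti classes on `Y` of degree `2 j` are rational classes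
on which `Γ` acts by `χ ^ j`; they contain the classes of cycles with rational coefficients and are
closed under sums, rational multiples, products, pull-backs and push-forwards: they are an
`InvClasses` system `D`. A system `C` of subspaces which contains the classes of cycles and is closed
under products, pull-backs and push-forwards (`IsSys`) is for example the span of the motivated
classes of André, or of the algebraic classes. `AllClsIn D C Y` says that all de Rham-Betti classes
on `Y` are in `C` (for a rational class this means: it is motivated, respectively algebraic, with
rational coefficients), and `AllPowersIn D C Y` says this for all powers of `Y`: the realisation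
of the tensor category of motives generated by `h(Y)` in de Rham-Betti objects is full. This and the
reductivity of `G_dRB` is the conjecture `Ω^dRB = Ω^And`, respectively `Ω^dRB = Ω^mot`.

Let `X i` be any family of varieties over `K`, which may be infinite: `X i` is odd-dimensional,
homological and numerical equivalence coincide on `X i`, the transcendental cohomology `T i` (the
orthogonal complement of all algebraic classes) is in the middle degree (`OddMiddle`), `Γ` acts
irreducibly on the Lie algebra `sp(T i)` of the operators on `T i` which are skew for the intersection
form, some element of `Γ` has two eigenvalues on `T i` whose quotient is not a root of unity, and these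
adjoint representations are pairwise not isomorphic (`BigFamily`). By the theorem of Wüstholz this is
so for ALL families of elliptic curves over `ℚ̄` without complex multiplication which are pairwise not
isogenous: `G_dRB` acts on `H^1(E)` through `GL_2`. Let `Z` be ANY variety over `K`.

The theorem: there is ONE finite set `B` of indices which works for all powers of `Z`, for all systems
`D` of invariant classes and all systems `C`:

(1) For all `n` and all lists `L` the de Rham-Betti classes on `Z^(n+1) × ∏_{i ∈ L} X i` are in `C` if and
only if this holds for the products with the small sublists of `L`, which consist of elements of `B`:
for some degree `m` of the right parity the product of the numbers (exponent of `X i`) + 1 and the sum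
of the `dim T i`, over the `i` which occur, are at most the Betti number `b_m(Z^(n+1))`.

(2) For all lists `L` the de Rham-Betti classes on all powers of `Z × ∏_{i ∈ L} X i` are in `C` if and
only if this holds for `Z × ∏_{i ∈ L, i ∈ B} X i`: all factors which are not in `B` can be omitted.

(3) `∑_{i ∈ B} dim sp(T i) ≤ b ^ 2` where `b` is the dimension of any sum of cohomology groups `H^m(Z)`,
`m ∈ S`, which generates the cohomology algebra of `Z` (`GenBound`); in particular `b = dim H(Z)` is
possible for all `Z`, and `b = 2 g` if `Z` is an abelian variety of dimension `g`. No `i ∈ B` is separated
from `Z` by the eigenvalues of an element of `Γ` (`GalSep`).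

For instance: given `Z`, for all elliptic curves `E` over `ℚ̄` without complex multiplication, except
for at most `b ^ 2 / 3` isogeny classes, the de Rham-Betti classes on all powers of `Z × E` are
motivated (algebraic) if and only if the ones on all powers of `Z` are so.

The idea of the proof: if the factor `X i` matters for some power of `Z` then `sp(T i)` acts by
derivations of `H(Z^(n+1))` which can be chosen to commute with all endomorphisms of `Z^(n+1)`, in
particular with the permutations of the factors; so they are determined by their restriction to the
generators of the cohomology of one factor `Z`, and these restrictions are linearly independent for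
the different `i`. It is not used that the group `G_dRB` is reductive.
-/

open CategoryTheory AlgebraicGeometry

universe u

namespace Pool.Agent.Results.MP_470b79_ag.FinitelyManyFactors

open Pool.Agent.H914 Pool.Agent.H914.VarClass Pool.Agent.H914.VarClass.Obj Pool.Agent.Y132.AH
  Pool.Agent.X227.UP

variable {k : Type u} [Field k] {𝒱 : VarClass k} {ops : CycleOps 𝒱}

theorem result (W : WeilCohomology.{u, 0} ops) [IsAlgClosed W.K] {Γ : Type} [Group Γ]
    (G : GaloisData W Γ) {ι : Type} [DecidableEq ι] (X : ι → 𝒱.Obj)
    (hX : ∀ i, OddMiddle W (X i)) (hG : BigFamily G X) (Z : 𝒱.Obj) :
    ∃ B : Finset ι, GenBound W X Z B ∧ (∀ i ∈ B, ¬GalSep G (X i) Z) ∧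
      ∀ (D : InvClasses G) (C : Fam W), IsSys C →
        (∀ (n : ℕ) (L : List ι), AllClsIn D C (prodList X (powN Z n) L) ↔
          ∀ L' : List ι, L'.Sublist L → SmallDim W X (powN Z n) B L' →
            AllClsIn D C (prodList X (powN Z n) L')) ∧
        ∀ L : List ι, AllPowersIn D C (prodList X Z L) ↔
          AllPowersIn D C (prodList X Z (L.filter (· ∈ B))) :=
  drb_gen G Z hX hG

end Pool.Agent.Results.MP_470b79_ag.FinitelyManyFactors
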