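import Pool.Agent.X312.FM.Per

/-!
# A gap law for algebraic, motivated and de Rham-Betti classes on `Y × X ^ n`

Let `X` and `Y` be **any** smooth projective varieties over the field of algebraic numbers. For a
variety `Z` consider the spaces of the algebraic classes, of the motivated classes and of the de
Rham-Betti classes in `⊕_j H^(2 j)(Z, ℚ(j))`,

`Alg(Z) ⊂ Mot(Z) ⊂ dRB(Z)`.

Let `ρ(Z)` be the rank of the cycles of all codimensions on `Z` modulo numerical equivalence, `b`
the sum of the Betti numbers of `X`, and `ε_n = 4 (m + 3) b ^ (m + 5) log (n + 1) / n`. For all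
`m, n ≥ 1`:

`dim dRB(Y × X ^ n) ≥ ρ(Y × X ^ n) + c_m (1 - ε_n) ρ(X ^ n) + c'_m (1 - ε_n) dim Mot(X ^ n)`,

**where** `c_m = 0` **if all motivated classes on** `Y × X ^ m` **are algebraic and homological
and numerical equivalence agree on it, and** `c_m = 1` **otherwise, and** `c'_m = 0` **if all de
Rham-Betti classes on** `Y × X ^ m` **are motivated and** `c'_m = 1` **otherwise**.

Nothing is assumed on `X` and `Y`. The conjecture Q2 for the motives generated by `X` and `Y`
implies that `c_m = c'_m = 0` for all `m` (also with other products of powers in the place of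
`Y`), and that `dRB = Alg`. So one motivated class which is not algebraic, or one de Rham-Betti
class which is not motivated, on one `Y × X ^ m` gives almost `ρ(X ^ n)`, resp. `dim Mot(X ^ n)`,
independent de Rham-Betti classes which are not algebraic on all the varieties `Y × X ^ n`, and if
there are both, the two numbers add up.

The pairing on motivated classes is nondegenerate by the Hodge index theorem (André); de
Rham-Betti classes are stable under pull-backs, push-forwards and products with motivated classes.

The proof. Identify the classes on `Y × Z` with the homomorphisms `H(Y) → H(Z)`. Two families `N'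
⊂ N` of spaces of classes as above are stable under the correspondences in `Mot`, resp. in `Alg`,
from `Z` to `Z'`. If they differ for `Y × P`, `P = X ^ m`, one takes an idempotent correspondence
`g` on `P` of minimal rank which does not vanish on `N(Y × P) / N'(Y × P)` and an element `z` of
`g N(Y × P)` which is not in `N'(Y × P)`. A correspondence `x` with `x z ∈ N'(Y × P)` has a
nilpotent compression `g x g`, so the trace of `g x` vanishes; therefore `dim N(Y × Z) / N'(Y ×
Z)` is at least the rank of the trace form `(u, v) ↦ tr (g v u)` for all `Z`, and for `Z = X ^ n`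
this rank is compared with `dim Mot(X ^ n)` by the log-convexity of the sequence of these
dimensions and by the symmetric group.
-/

set_option autoImplicit false

open CategoryTheory AlgebraicGeometry

universe u v w

namespace Pool.Agent.Results.MP_470b79_ag.GapLaw

open Pool.Agent.H914 VarClass Obj WeilCohomology
open Pool.Agent.X312.FM (Family Has IsRingFamily IsModuleFamily IsSubfamily Agree IsNondeg dimOn gapBound)
open Pool.Agent.Y133.Half (pw cycRank)

variable {k : Type u} [Field k] {𝒱 : VarClass k} {ops : CycleOps 𝒱}
  {W : WeilCohomology.{u, v} ops}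

/-- The sum of the Betti numbers of `X`. -/
noncomputable def totalBetti (W : WeilCohomology.{u, v} ops) (X : 𝒱.Obj) : ℕ :=
  Module.finrank W.K (W.H X)

/-- The class `c` is a linear combination of classes of algebraic cycles. -/
def IsAlg {Z : 𝒱.Obj} (c : W.H Z) : Prop :=
  c ∈ Submodule.span W.K {x | ∃ (j : ℕ) (z : Z.Cycles), Z.IsCyc j z ∧ x = W.cl Z z}

/-- All classes of the family `M` on `Z` are algebraic, and homological equivalence is numerical
equivalence on `Z`. -/
def Standard (M : Family W) (Z : 𝒱.Obj) : Prop :=
  (∀ c : W.H Z, Has M c → IsAlg c) ∧ HomEqNum W Z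

open Classical in
/-- The number which is `0` if `P` is true and `x` if `P` is false. -/
noncomputable def zeroIf (P : Prop) (x : ℝ) : ℝ := if P then 0 else x

/-- **The gap law for the two inclusions.** In the intended use `M` and `D` are the families of the
spaces of the motivated classes and of the de Rham-Betti classes. Here `dimOn D Z` is the dimension of
`D Z`, `cycRank ops Z` is `ρ(Z)`, and `pw X m` is the product of `m + 1` copies of `X`. -/
theorem result (M D : Family W) (hM : IsRingFamily M) (hcl : ∀ (Z : 𝒱.Obj) (c : W.H Z), IsAlg c → Has M c)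
    (hD : IsModuleFamily M D) (hle : IsSubfamily M D) (X Y : 𝒱.Obj)
    (hX : ∀ n, IsNondeg M (pw X n)) (m n : ℕ) :
    cycRank ops (Y.prod (pw X n)) +
      zeroIf (Standard M (Y.prod (pw X m))) (gapBound (totalBetti W X) (cycRank ops (pw X n)) m n) +
      zeroIf (Agree D M (Y.prod (pw X m))) (gapBound (totalBetti W X) (dimOn M (pw X n)) m n) ≤
    dimOn D (Y.prod (pw X n)) := by
  have key : ∀ (Z : 𝒱.Obj) (c : W.H Z), c ∈ Pool.Agent.H281R3.HT.algSpan W Z ↔ IsAlg c := by
    intro Z c
    constructor
    · intro hc
      refine Pool.Agent.W536.RR.algSpan_induction (p := fun c => IsAlg c) ?_ ?_ ?_ ?_ hc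
      · exact Submodule.zero_mem _
      · intro a b ha hb; exact Submodule.add_mem _ ha hb
      · intro t a ha; exact Submodule.smul_mem _ _ ha
      · intro j z hz; exact Submodule.subset_span ⟨j, z, hz, rfl⟩
    · intro hc
      refine Submodule.span_le.2 ?_ hc
      rintro _ ⟨j, z, hz, rfl⟩
      exact Pool.Agent.W536.RR.cl_mem_algSpan hz
  obtain ⟨h1, h2⟩ := Pool.Agent.X312.FM.per_law hM
    (fun Z j z hz => hcl Z _ (Submodule.subset_span ⟨j, z, hz, rfl⟩)) hD hle X Y hX m
  have h5 : (cycRank ops (Y.prod (pw X n)) : ℝ) +
      zeroIf (Standard M (Y.prod (pw X m))) (gapBound (totalBetti W X) (cycRank ops (pw X n)) m n) ≤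
      dimOn M (Y.prod (pw X n)) := by
    unfold zeroIf
    split_ifs with h
    · rw [add_zero]
      exact Pool.Agent.X312.FM.rank_le hM
        (fun Z j z hz => hcl Z _ (Submodule.subset_span ⟨j, z, hz, rfl⟩)) _
    · rcases h1 with ⟨h3, h4⟩ | h3
      · exact absurd ⟨fun c hc => (key _ _).1 (h3 c hc), h4⟩ h
      · exact h3 n
  have h6 : (dimOn M (Y.prod (pw X n)) : ℝ) +
      zeroIf (Agree D M (Y.prod (pw X m))) (gapBound (totalBetti W X) (dimOn M (pw X n)) m n) ≤
      dimOn D (Y.prod (pw X n)) := by
    unfold zeroIf
    split_ifs with h
    · rw [add_zero]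
      exact_mod_cast Submodule.finrank_mono (Pool.Agent.X312.FM.le_of_sub hle _)
    · rcases h2 with h3 | h3
      · exact absurd h3 h
      · exact h3 n
  linarith

end Pool.Agent.Results.MP_470b79_ag.GapLaw
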